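import Pool.Agent.Q73.KT.Cm

/-!
# Project KT: the gap
-/

set_option autoImplicit false

open scoped BigOperators
open Finset Filter Topology Pool.Agent.Q234.KT

namespace Pool.Agent.Q73.KT.GA

section

variable {V : Type} [Fintype V] [DecidableEq V]

/-- the sum of the absolute values of the coefficients -/
noncomputable def l1 (F : (V → Fin 2) → ℂ) : ℝ := ∑ X : Finset V, ‖co F X‖

theorem l1_nonneg (F : (V → Fin 2) → ℂ) : 0 ≤ l1 F := Finset.sum_nonneg fun _ _ => norm_nonneg _

theorem l1_mul (h : WalshS) (F G : (V → Fin 2) → ℂ) :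
    l1 (fun σ => F σ * G σ) ≤ l1 F * l1 G := by
  obtain ⟨-, -, h3, -⟩ := h V
  unfold l1
  calc ∑ Z : Finset V, ‖co (fun σ => F σ * G σ) Z‖
      ≤ ∑ Z : Finset V, ∑ X : Finset V, ‖co F X‖ * ‖co G (symmDiff X Z)‖ := by
        refine Finset.sum_le_sum fun Z _ => ?_
        rw [h3]
        refine (norm_sum_le _ _).trans ?_
        exact Finset.sum_le_sum fun X _ => by rw [norm_mul]
    _ = ∑ X : Finset V, ‖co F X‖ * ∑ Z : Finset V, ‖co G Z‖ := by
        rw [Finset.sum_comm]
        refine Finset.sum_congr rfl fun X _ => ?_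
        rw [← Finset.mul_sum]
        congr 1
        refine Fintype.sum_bijective (fun Z => symmDiff X Z)
          (Function.Involutive.bijective fun Z => symmDiff_symmDiff_cancel_left X Z) _ _
          fun Z => rfl
    _ = (∑ X : Finset V, ‖co F X‖) * ∑ Z : Finset V, ‖co G Z‖ := by rw [Finset.sum_mul]

theorem l1_add (F G : (V → Fin 2) → ℂ) : l1 (fun σ => F σ + G σ) ≤ l1 F + l1 G := by
  unfold l1
  rw [← Finset.sum_add_distrib]
  refine Finset.sum_le_sum fun X _ => ?_
  rw [co_add]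
  exact norm_add_le _ _

theorem l1_sub (F G : (V → Fin 2) → ℂ) : l1 (fun σ => F σ - G σ) ≤ l1 F + l1 G := by
  unfold l1
  rw [← Finset.sum_add_distrib]
  refine Finset.sum_le_sum fun X _ => ?_
  rw [co_sub]
  exact norm_sub_le _ _

theorem l1_smul (c : ℂ) (F : (V → Fin 2) → ℂ) : l1 (fun σ => c * F σ) = ‖c‖ * l1 F := by
  unfold l1
  rw [Finset.mul_sum]
  refine Finset.sum_congr rfl fun X _ => ?_
  rw [co_smul, norm_mul]

theorem l1_sum {ι : Type*} (s : Finset ι) (F : ι → (V → Fin 2) → ℂ) :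
    l1 (fun σ => ∑ i ∈ s, F i σ) ≤ ∑ i ∈ s, l1 (F i) := by
  unfold l1
  rw [Finset.sum_comm]
  refine Finset.sum_le_sum fun X _ => ?_
  rw [co_sum]
  exact norm_sum_le _ _

theorem l1_one (h : WalshS) : l1 (fun _ : V → Fin 2 => (1 : ℂ)) ≤ 1 := by
  obtain ⟨-, h2, -⟩ := h V
  have e : (fun _ : V → Fin 2 => (1 : ℂ)) =
      fun σ => ∑ X : Finset V, (if X = ∅ then (1 : ℂ) else 0) * ch X σ := by
    funext σ
    rw [Finset.sum_eq_single (∅ : Finset V)]
    · rw [if_pos rfl, ch_empty, one_mul]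
    · intro X _ hX
      rw [if_neg hX, zero_mul]
    · intro h
      exact absurd (Finset.mem_univ _) h
  unfold l1
  rw [e]
  simp only [h2]
  rw [Finset.sum_eq_single (∅ : Finset V)]
  · simp
  · intro X _ hX
    rw [if_neg hX, norm_zero]
  · intro h
    exact absurd (Finset.mem_univ _) h

theorem l1_pow (h : WalshS) (F : (V → Fin 2) → ℂ) (n : ℕ) :
    l1 (fun σ => (1 + F σ) ^ n - 1) ≤ (1 + l1 F) ^ n - 1 := by
  induction n with
  | zero =>
    have : (fun σ => (1 + F σ) ^ 0 - 1) = fun σ : V → Fin 2 => (0 : ℂ) * F σ := by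
      funext σ
      ring
    rw [this, l1_smul]
    simp
  | succ n ih =>
    have e : (fun σ => (1 + F σ) ^ (n + 1) - 1) = fun σ : V → Fin 2 =>
        (((1 + F σ) ^ n - 1) + ((1 + F σ) ^ n - 1) * F σ) + F σ := by
      funext σ
      ring
    rw [e]
    have h1 := l1_add (fun σ => ((1 + F σ) ^ n - 1) + ((1 + F σ) ^ n - 1) * F σ) F
    have h2 := l1_add (fun σ => (1 + F σ) ^ n - 1) (fun σ => ((1 + F σ) ^ n - 1) * F σ)
    have h3 := l1_mul h (fun σ => (1 + F σ) ^ n - 1) F
    have h4 := l1_nonneg F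
    have h5 : l1 (fun σ => (1 + F σ) ^ n - 1) * l1 F ≤ ((1 + l1 F) ^ n - 1) * l1 F :=
      mul_le_mul_of_nonneg_right ih h4
    calc _ ≤ _ := h1
      _ ≤ (((1 + l1 F) ^ n - 1) + ((1 + l1 F) ^ n - 1) * l1 F) + l1 F := by linarith
      _ = (1 + l1 F) ^ (n + 1) - 1 := by ring

theorem l1_exp (h : WalshS) (F : (V → Fin 2) → ℂ) :
    l1 (fun σ => Complex.exp (F σ) - 1) ≤ Real.exp (l1 F) - 1 := by
  have t1 : Tendsto (fun n : ℕ => l1 (fun σ => (1 + F σ / n) ^ n - 1)) atTop
      (𝓝 (l1 (fun σ => Complex.exp (F σ) - 1))) := by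
    unfold l1
    refine tendsto_finsetSum _ fun X _ => Tendsto.norm ?_
    unfold co
    refine Tendsto.const_mul _ (tendsto_finsetSum _ fun σ _ => Tendsto.mul_const _ ?_)
    exact (Complex.tendsto_one_add_div_pow_exp (F σ)).sub_const 1
  have t2 : Tendsto (fun n : ℕ => (1 + l1 F / n) ^ n - 1) atTop (𝓝 (Real.exp (l1 F) - 1)) :=
    (Real.tendsto_one_add_div_pow_exp (l1 F)).sub_const 1
  refine le_of_tendsto_of_tendsto' t1 t2 fun n => ?_
  have e : (fun σ => (1 + F σ / n) ^ n - 1) = fun σ : V → Fin 2 => (1 + (n : ℂ)⁻¹ * F σ) ^ n - 1 := by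
    funext σ
    rw [div_eq_inv_mul]
  rw [e]
  refine (l1_pow h _ n).trans ?_
  rw [l1_smul, norm_inv, Complex.norm_natCast, ← div_eq_inv_mul]

theorem l1_Gp (h : WalshS) (g : Finset V → ℂ) (A : Finset V) :
    l1 (fun σ => Gp g A σ) = ∑ X ∈ univ.filter (fun X : Finset V => Odd (X ∩ A).card), ‖g X‖ := by
  unfold l1
  rw [Finset.sum_filter]
  refine Finset.sum_congr rfl fun X _ => ?_
  rw [co_Gp h]
  by_cases hX : Odd (X ∩ A).card
  · rw [if_pos hX, if_pos hX]
  · rw [if_neg hX, if_neg hX, norm_zero]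

theorem l1_Gp_le (h : WalshS) (g : Finset V → ℂ) (A : Finset V) (δ : ℝ)
    (hδ : ∀ x, ∑ X ∈ univ.filter (fun X : Finset V => x ∈ X), ‖g X‖ ≤ δ) :
    l1 (fun σ => Gp g A σ) ≤ A.card * δ := by
  rw [l1_Gp h]
  calc ∑ X ∈ univ.filter (fun X : Finset V => Odd (X ∩ A).card), ‖g X‖
      ≤ ∑ X : Finset V, ∑ v ∈ A, if v ∈ X then ‖g X‖ else 0 := by
        rw [Finset.sum_filter]
        refine Finset.sum_le_sum fun X _ => ?_
        split_ifs with hX
        · obtain ⟨v, hv⟩ := Finset.card_pos.1 hX.pos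
          rw [Finset.mem_inter] at hv
          have := Finset.single_le_sum (f := fun v => if v ∈ X then ‖g X‖ else 0)
            (fun v _ => by positivity) hv.2
          simpa [hv.1] using this
        · exact Finset.sum_nonneg fun v _ => by positivity
    _ = ∑ v ∈ A, ∑ X ∈ univ.filter (fun X : Finset V => v ∈ X), ‖g X‖ := by
        rw [Finset.sum_comm]
        exact Finset.sum_congr rfl fun v _ => by rw [Finset.sum_filter]
    _ ≤ ∑ v ∈ A, δ := Finset.sum_le_sum fun v _ => hδ v
    _ = A.card * δ := by rw [Finset.sum_const, nsmul_eq_mul]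

end

theorem exp_bound : Real.exp (1 / 8) - 1 ≤ 1 / 6 := by
  have h := Real.exp_bound' (x := 1 / 8) (by norm_num) (by norm_num) (n := 3) (by norm_num)
  have e : ∑ m ∈ Finset.range 3, (1 / 8 : ℝ) ^ m / m.factorial = 1 + 1 / 8 + 1 / 128 := by
    simp [Finset.sum_range_succ, Nat.factorial]
    norm_num
  rw [e] at h
  norm_num [Nat.factorial] at h
  linarith

theorem main (h : WalshS) : GapS := by
  intro b m
  refine ⟨1 / (24 * 2 ^ b * (m + 1)), by positivity, ?_⟩
  intro V _ _ J _ t A B w g E μ F ht hP hg hE hμ hF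
  set ω : ℝ := 1 / (24 * 2 ^ b * (m + 1)) with hω
  have hω0 : 0 < ω := by positivity
  obtain ⟨h1, h2, h3, h4, -⟩ := h V
  set f : (V → Fin 2) → ℂ := fun σ => F σ / Psi g σ with hf
  have hFf : ∀ σ, F σ = f σ * Psi g σ := fun σ => by
    rw [hf]
    exact (div_mul_cancel₀ _ (psi_ne g σ)).symm
  set a : Finset V → ℂ := fun X => co f X with ha
  have hfa : ∀ σ, f σ = ∑ X : Finset V, a X * ch X σ := fun σ => h1 f σ
  have hdiff : ∀ (A : Finset V) (σ : V → Fin 2), f (fl A σ) - f σ = -2 * Gp a A σ := by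
    intro A σ
    rw [hfa, hfa, sum_fl h]
    ring
  -- the equation for f
  set eu : V → (V → Fin 2) → ℂ := fun u σ => Complex.exp (-2 * Gp g {u} σ) with heu
  set ej : J → (V → Fin 2) → ℂ := fun j σ => Complex.exp (-2 * Gp g (A j) σ) with hej
  have hE2 : ∀ σ, E = -∑ u, eu u σ + ∑ j, w j σ * ej j σ := by
    intro σ
    have h5 := hE σ
    unfold Hf at h5
    simp only [psi_fl h] at h5
    have h6 : Psi g σ * (-∑ u, eu u σ + ∑ j, w j σ * ej j σ) = E * Psi g σ := by
      rw [← h5, mul_add, mul_neg, Finset.mul_sum, Finset.mul_sum]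
      congr 1
      exact Finset.sum_congr rfl fun j _ => by rw [hej]; ring
    rw [mul_comm] at h6
    exact (mul_right_cancel₀ (psi_ne g σ) h6).symm
  have hF2 : ∀ σ, (E + μ) * f σ = -∑ u, eu u σ * f (fl {u} σ) +
      ∑ j, w j σ * ej j σ * f (fl (A j) σ) := by
    intro σ
    have h5 := hF σ
    unfold Hf at h5
    simp only [hFf, psi_fl h] at h5
    have h6 : (-∑ u, eu u σ * f (fl {u} σ) + ∑ j, w j σ * ej j σ * f (fl (A j) σ)) * Psi g σ =
        (E + μ) * f σ * Psi g σ := by
      rw [mul_assoc, ← h5, add_mul, neg_mul, Finset.sum_mul, Finset.sum_mul]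
      congr 1
      · congr 1
        exact Finset.sum_congr rfl fun j _ => by rw [heu]; ring
      · exact Finset.sum_congr rfl fun j _ => by rw [hej]; ring
    exact (mul_right_cancel₀ (psi_ne g σ) h6).symm
  have hF3 : ∀ σ, μ * f σ = 2 * ∑ u, eu u σ * Gp a {u} σ -
      2 * ∑ j, w j σ * ej j σ * Gp a (A j) σ := by
    intro σ
    have e1 : ∀ u, eu u σ * f (fl {u} σ) = eu u σ * f σ - 2 * (eu u σ * Gp a {u} σ) := by
      intro u
      have := hdiff {u} σ
      linear_combination eu u σ * this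
    have e2 : ∀ j, w j σ * ej j σ * f (fl (A j) σ) =
        w j σ * ej j σ * f σ - 2 * (w j σ * ej j σ * Gp a (A j) σ) := by
      intro j
      have := hdiff (A j) σ
      linear_combination w j σ * ej j σ * this
    have h5 := hF2 σ
    simp only [e1, e2] at h5
    rw [Finset.sum_sub_distrib, Finset.sum_sub_distrib, ← Finset.sum_mul, ← Finset.sum_mul,
      ← Finset.mul_sum, ← Finset.mul_sum] at h5
    have h6 := hE2 σ
    linear_combination h5 - f σ * h6
  set K : (V → Fin 2) → ℂ := fun σ => 2 * ∑ u, (eu u σ - 1) * Gp a {u} σ -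
      2 * ∑ j, (w j σ * ej j σ) * Gp a (A j) σ with hK
  have hK2 : ∀ σ, K σ = μ * f σ - 2 * ∑ u, Gp a {u} σ := by
    intro σ
    rw [hF3 σ, hK]
    simp only [sub_mul, one_mul, Finset.sum_sub_distrib]
    ring
  have hcoef : ∀ X : Finset V, co K X = (μ - 2 * X.card) * a X := by
    intro X
    have e : K = fun σ => μ * f σ - 2 * ∑ u, Gp a {u} σ := funext hK2
    rw [e, co_sub, co_smul, co_smul, co_sum]
    have : ∑ u, co (Gp a {u}) X = (X.card : ℂ) * a X := by
      have e3 : ∀ u, co (Gp a {u}) X = if u ∈ X then a X else 0 := by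
        intro u
        have := co_Gp h a {u} X
        simp only [odd_single] at this
        exact this
      simp only [e3]
      rw [← Finset.sum_filter, Finset.sum_const, nsmul_eq_mul]
      congr 2
      congr 1
      ext u
      simp
    rw [this]
    ring
  -- the sum
  set S : ℝ := ∑ X : Finset V, (X.card : ℝ) * ‖a X‖ with hS
  have hS0 : 0 ≤ S := Finset.sum_nonneg fun X _ => mul_nonneg (Nat.cast_nonneg _) (norm_nonneg _)
  have hlow : S ≤ l1 K := by
    rw [hS]
    unfold l1
    refine Finset.sum_le_sum fun X _ => ?_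
    rw [hcoef, norm_mul]
    by_cases hX : X = ∅
    · rw [hX]
      simp
      positivity
    · have hc : (1 : ℝ) ≤ X.card := by
        have := Finset.card_pos.2 (Finset.nonempty_iff_ne_empty.2 hX)
        exact_mod_cast this
      refine mul_le_mul_of_nonneg_right ?_ (norm_nonneg _)
      have h5 : |(μ - 2 * (X.card : ℂ)).re| ≤ ‖μ - 2 * (X.card : ℂ)‖ := Complex.abs_re_le_norm _
      have h6 : (μ - 2 * (X.card : ℂ)).re = μ.re - 2 * X.card := by simp
      rw [h6] at h5
      have h7 := neg_abs_le (μ.re - 2 * X.card)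
      linarith
  have hGu : ∀ u, l1 (fun σ => eu u σ - 1) ≤ 1 / 6 := by
    intro u
    have h5 := l1_Gp_le h g {u} _ hg
    have h6 : l1 (fun σ => -2 * Gp g {u} σ) ≤ 1 / 8 := by
      rw [l1_smul]
      have h7 : (({u} : Finset V).card : ℝ) = 1 := by simp
      rw [h7, one_mul] at h5
      have h8 : (1 : ℝ) / (16 * (b + 1)) ≤ 1 / 16 := by
        apply one_div_le_one_div_of_le (by norm_num)
        have : (0 : ℝ) ≤ b := b.cast_nonneg
        linarith
      have h9 : ‖(-2 : ℂ)‖ = 2 := by simp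
      rw [h9]
      linarith
    refine (l1_exp h _).trans ?_
    have h7 := Real.exp_le_exp.2 h6
    have h8 := exp_bound
    linarith
  have hGj : ∀ j, l1 (ej j) ≤ 2 := by
    intro j
    have h5 := l1_Gp_le h g (A j) _ hg
    have hb : ((A j).card : ℝ) ≤ b := by
      have h6 := (Finset.card_le_card (hP.sub j)).trans ((ht.card (B j)).trans (hP.size j))
      exact_mod_cast h6
    have h6 : l1 (fun σ => -2 * Gp g (A j) σ) ≤ 1 / 8 := by
      rw [l1_smul]
      have h9 : ‖(-2 : ℂ)‖ = 2 := by simp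
      rw [h9]
      have h7 : ((A j).card : ℝ) * (1 / (16 * (b + 1))) ≤ 1 / 16 := by
        have hb0 : (0 : ℝ) ≤ b := b.cast_nonneg
        calc ((A j).card : ℝ) * (1 / (16 * (b + 1))) ≤ (b + 1) * (1 / (16 * (b + 1))) := by
              gcongr
              linarith
          _ = 1 / 16 := by field_simp
      linarith
    have h7 := l1_exp h (fun σ => -2 * Gp g (A j) σ)
    have h8 := Real.exp_le_exp.2 h6
    have h9 := exp_bound
    have h10 : ej j = fun σ => (Complex.exp (-2 * Gp g (A j) σ) - 1) + 1 := by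
      funext σ
      rw [hej]
      ring
    rw [h10]
    refine (l1_add _ _).trans ?_
    have h11 := l1_one (V := V) h
    linarith
  have hw : ∀ j, l1 (w j) ≤ 2 ^ b * ω := by
    intro j
    unfold l1
    calc ∑ X : Finset V, ‖co (w j) X‖ = ∑ X ∈ (B j).powerset, ‖co (w j) X‖ := by
          symm
          refine Finset.sum_subset (Finset.subset_univ _) fun X _ hX => ?_
          rw [hP.supp j X (by simpa using hX), norm_zero]
      _ ≤ ∑ X ∈ (B j).powerset, ω := Finset.sum_le_sum fun X _ => hP.bd j X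
      _ = 2 ^ (B j).card * ω := by
          rw [Finset.sum_const, Finset.card_powerset, nsmul_eq_mul]
          push_cast
          ring
      _ ≤ 2 ^ b * ω := by
          gcongr
          · norm_num
          · exact (ht.card (B j)).trans (hP.size j)
  have hsumu : ∑ u, l1 (fun σ => Gp a {u} σ) = S := by
    have e : ∀ u, l1 (fun σ => Gp a {u} σ) = ∑ X : Finset V, if u ∈ X then ‖a X‖ else 0 := by
      intro u
      rw [l1_Gp h, Finset.sum_filter]
      simp only [odd_single]
    simp only [e]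
    rw [Finset.sum_comm, hS]
    refine Finset.sum_congr rfl fun X _ => ?_
    rw [← Finset.sum_filter, Finset.sum_const, nsmul_eq_mul]
    congr 2
    congr 1
    ext u
    simp
  have hsumj : ∑ j, l1 (fun σ => Gp a (A j) σ) ≤ m * S := by
    have e : ∀ j, l1 (fun σ => Gp a (A j) σ) ≤
        ∑ X : Finset V, ∑ v ∈ X, if v ∈ B j then ‖a X‖ else 0 := by
      intro j
      rw [l1_Gp h, Finset.sum_filter]
      refine Finset.sum_le_sum fun X _ => ?_
      split_ifs with hX
      · obtain ⟨v, hv⟩ := Finset.card_pos.1 hX.pos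
        rw [Finset.mem_inter] at hv
        have := Finset.single_le_sum (f := fun v => if v ∈ B j then ‖a X‖ else 0)
          (fun v _ => by positivity) hv.1
        simpa [hP.sub j hv.2] using this
      · exact Finset.sum_nonneg fun v _ => by positivity
    calc ∑ j, l1 (fun σ => Gp a (A j) σ)
        ≤ ∑ j, ∑ X : Finset V, ∑ v ∈ X, (if v ∈ B j then ‖a X‖ else 0) :=
          Finset.sum_le_sum fun j _ => e j
      _ = ∑ X : Finset V, ∑ v ∈ X, ∑ j, (if v ∈ B j then ‖a X‖ else 0) := by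
          rw [Finset.sum_comm]
          exact Finset.sum_congr rfl fun X _ => Finset.sum_comm
      _ ≤ ∑ X : Finset V, ∑ v ∈ X, m * ‖a X‖ := by
          refine Finset.sum_le_sum fun X _ => Finset.sum_le_sum fun v _ => ?_
          rw [← Finset.sum_filter, Finset.sum_const, nsmul_eq_mul]
          refine mul_le_mul_of_nonneg_right ?_ (norm_nonneg _)
          have := hP.mult v
          exact_mod_cast this
      _ = m * S := by
          rw [hS, Finset.mul_sum]
          refine Finset.sum_congr rfl fun X _ => ?_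
          rw [Finset.sum_const, nsmul_eq_mul]
          ring
  have hup : l1 K ≤ 1 / 2 * S := by
    have k1 : l1 K ≤ 2 * ∑ u, l1 (fun σ => (eu u σ - 1) * Gp a {u} σ) +
        2 * ∑ j, l1 (fun σ => (w j σ * ej j σ) * Gp a (A j) σ) := by
      rw [hK]
      refine (l1_sub _ _).trans ?_
      rw [l1_smul, l1_smul]
      have h9 : ‖(2 : ℂ)‖ = 2 := by simp
      rw [h9]
      have k2 := l1_sum univ fun u (σ : V → Fin 2) => (eu u σ - 1) * Gp a {u} σ
      have k3 := l1_sum univ fun j (σ : V → Fin 2) => (w j σ * ej j σ) * Gp a (A j) σ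
      linarith
    have k4 : ∑ u, l1 (fun σ => (eu u σ - 1) * Gp a {u} σ) ≤ 1 / 6 * S := by
      rw [← hsumu, Finset.mul_sum]
      refine Finset.sum_le_sum fun u _ => ?_
      refine (l1_mul h _ _).trans ?_
      exact mul_le_mul_of_nonneg_right (hGu u) (l1_nonneg _)
    have k5 : ∑ j, l1 (fun σ => (w j σ * ej j σ) * Gp a (A j) σ) ≤ 2 ^ b * ω * 2 * (m * S) := by
      calc ∑ j, l1 (fun σ => (w j σ * ej j σ) * Gp a (A j) σ)
          ≤ ∑ j, 2 ^ b * ω * 2 * l1 (fun σ => Gp a (A j) σ) := by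
            refine Finset.sum_le_sum fun j _ => ?_
            refine (l1_mul h _ _).trans ?_
            refine mul_le_mul_of_nonneg_right ?_ (l1_nonneg _)
            refine (l1_mul h _ _).trans ?_
            exact mul_le_mul (hw j) (hGj j) (l1_nonneg _) (by positivity)
        _ = 2 ^ b * ω * 2 * ∑ j, l1 (fun σ => Gp a (A j) σ) := by rw [Finset.mul_sum]
        _ ≤ 2 ^ b * ω * 2 * (m * S) := mul_le_mul_of_nonneg_left hsumj (by positivity)
    have k6 : (2 : ℝ) ^ b * ω * 2 * (m * S) ≤ 1 / 12 * S := by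
      have k7 : (2 : ℝ) ^ b * ω * 2 * m ≤ 1 / 12 := by
        rw [hω]
        have k8 : (2 : ℝ) ^ b * (1 / (24 * 2 ^ b * (m + 1))) * 2 * m = 1 / 12 * (m / (m + 1)) := by
          field_simp
          ring
        rw [k8]
        have k9 : (m : ℝ) / (m + 1) ≤ 1 := by
          rw [div_le_one (by positivity)]
          linarith
        linarith
      calc (2 : ℝ) ^ b * ω * 2 * (m * S) = (2 : ℝ) ^ b * ω * 2 * m * S := by ring
        _ ≤ 1 / 12 * S := mul_le_mul_of_nonneg_right k7 hS0
    linarith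
  have hSz : S = 0 := by linarith
  have haz : ∀ X : Finset V, X ≠ ∅ → a X = 0 := by
    intro X hX
    have h5 := (Finset.sum_eq_zero_iff_of_nonneg
      (fun X _ => mul_nonneg (Nat.cast_nonneg _) (norm_nonneg _))).1 (hS ▸ hSz) X
      (Finset.mem_univ X)
    have hc : (X.card : ℝ) ≠ 0 := by
      rw [Nat.cast_ne_zero]
      exact (Finset.card_pos.2 (Finset.nonempty_iff_ne_empty.2 hX)).ne'
    have h6 := (mul_eq_zero.1 h5).resolve_left hc
    exact norm_eq_zero.1 h6
  refine ⟨a ∅, fun σ => ?_⟩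
  rw [hFf, hfa, Finset.sum_eq_single (∅ : Finset V)]
  · rw [ch_empty, mul_one]
  · intro X _ hX
    rw [haz X hX, zero_mul]
  · intro h5
    exact absurd (Finset.mem_univ _) h5

end Pool.Agent.Q73.KT.GA
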