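import Pool.Agent.Q73.KT.Cm

/-!
# Project KT: the fixed point is an eigenvector
-/

set_option autoImplicit false

open scoped BigOperators
open Finset Pool.Agent.Q234.KT

namespace Pool.Agent.Q73.KT.EG

theorem main (h : WalshS) : EigS := by
  intro V _ _ J _ A w g hg σ
  obtain ⟨h1, -⟩ := h V
  have hfix : ∀ X : Finset V, X ≠ ∅ → 2 * (X.card : ℂ) * g X = co (Ph A w g) X := by
    intro X hX
    have h2 := congrFun hg X
    unfold Tm at h2
    rw [if_neg hX] at h2
    have hc : (X.card : ℂ) ≠ 0 := by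
      rw [Nat.cast_ne_zero]
      exact (Finset.card_pos.2 (Finset.nonempty_iff_ne_empty.2 hX)).ne'
    rw [← h2]
    field_simp
  have hPh : Ph A w g σ = co (Ph A w g) ∅ + 2 * ∑ u, Gp g {u} σ := by
    rw [h1 (Ph A w g) σ, sum_Gp, Finset.mul_sum]
    rw [← Finset.add_sum_erase _ _ (Finset.mem_univ (∅ : Finset V)), ch_empty, mul_one]
    congr 1
    rw [← Finset.add_sum_erase (univ : Finset (Finset V))
      (fun X => 2 * ((X.card : ℂ) * (g X * ch X σ))) (Finset.mem_univ (∅ : Finset V))]
    simp only [Finset.card_empty, Nat.cast_zero, zero_mul, mul_zero, zero_add]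
    refine Finset.sum_congr rfl fun X hX => ?_
    rw [← hfix X (Finset.ne_of_mem_erase hX)]
    ring
  have hH : Hf A w (Psi g) σ = Psi g σ * (-∑ u, Complex.exp (-2 * Gp g {u} σ) +
      ∑ j, w j σ * Complex.exp (-2 * Gp g (A j) σ)) := by
    unfold Hf
    simp only [psi_fl h]
    rw [mul_add, mul_neg, Finset.mul_sum, Finset.mul_sum]
    congr 1
    exact Finset.sum_congr rfl fun j _ => by ring
  have hP2 : Ph A w g σ = ∑ u, Complex.exp (-2 * Gp g {u} σ) - (Fintype.card V : ℂ) +
      2 * ∑ u, Gp g {u} σ - ∑ j, w j σ * Complex.exp (-2 * Gp g (A j) σ) := by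
    unfold Ph
    rw [Finset.sum_add_distrib, Finset.sum_sub_distrib, Finset.mul_sum]
    simp
  rw [hH]
  unfold En
  have key : (-∑ u, Complex.exp (-2 * Gp g {u} σ) +
      ∑ j, w j σ * Complex.exp (-2 * Gp g (A j) σ)) = -(Fintype.card V : ℂ) - co (Ph A w g) ∅ := by
    have := hPh.symm.trans hP2
    linear_combination this
  rw [key]
  ring

end Pool.Agent.Q73.KT.EG
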