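import Pool.Agent.Q234.KT.Stm

/-!
# Project KT: common lemmas on coefficients
-/

set_option autoImplicit false

open scoped BigOperators
open Finset Pool.Agent.Q234.KT

namespace Pool.Agent.Q73.KT

section

variable {V : Type} [Fintype V] [DecidableEq V]

theorem co_sub (F G : (V → Fin 2) → ℂ) (X : Finset V) :
    co (fun σ => F σ - G σ) X = co F X - co G X := by
  unfold co
  rw [← mul_sub, ← Finset.sum_sub_distrib]
  congr 1
  exact Finset.sum_congr rfl fun σ _ => by ring

theorem co_add (F G : (V → Fin 2) → ℂ) (X : Finset V) :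
    co (fun σ => F σ + G σ) X = co F X + co G X := by
  unfold co
  rw [← mul_add, ← Finset.sum_add_distrib]
  congr 1
  exact Finset.sum_congr rfl fun σ _ => by ring

theorem co_smul (c : ℂ) (F : (V → Fin 2) → ℂ) (X : Finset V) :
    co (fun σ => c * F σ) X = c * co F X := by
  unfold co
  rw [Finset.mul_sum, Finset.mul_sum, Finset.mul_sum]
  exact Finset.sum_congr rfl fun σ _ => by ring

theorem co_sum {ι : Type*} (s : Finset ι) (F : ι → (V → Fin 2) → ℂ) (X : Finset V) :
    co (fun σ => ∑ i ∈ s, F i σ) X = ∑ i ∈ s, co (F i) X := by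
  unfold co
  rw [← Finset.mul_sum]
  congr 1
  rw [Finset.sum_comm]
  exact Finset.sum_congr rfl fun σ _ => by rw [Finset.sum_mul]

theorem ch_empty (σ : V → Fin 2) : ch (∅ : Finset V) σ = 1 := by
  unfold ch
  simp

/-- the flip changes the exponent -/
theorem sum_fl (h : WalshS) (g : Finset V → ℂ) (A : Finset V) (σ : V → Fin 2) :
    ∑ X : Finset V, g X * ch X (fl A σ) = ∑ X : Finset V, g X * ch X σ - 2 * Gp g A σ := by
  obtain ⟨-, -, -, h4, -⟩ := h V
  unfold Gp
  rw [Finset.sum_filter, Finset.mul_sum, ← Finset.sum_sub_distrib]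
  refine Finset.sum_congr rfl fun X _ => ?_
  rw [h4]
  by_cases hX : Odd (X ∩ A).card
  · rw [if_pos hX, hX.neg_one_pow]
    ring
  · rw [if_neg hX, (Nat.not_odd_iff_even.1 hX).neg_one_pow]
    ring

theorem psi_fl (h : WalshS) (g : Finset V → ℂ) (A : Finset V) (σ : V → Fin 2) :
    Psi g (fl A σ) = Psi g σ * Complex.exp (-2 * Gp g A σ) := by
  unfold Psi
  rw [sum_fl h, ← Complex.exp_add]
  congr 1
  ring

theorem psi_ne (g : Finset V → ℂ) (σ : V → Fin 2) : Psi g σ ≠ 0 := Complex.exp_ne_zero _

theorem odd_single (X : Finset V) (u : V) : Odd (X ∩ {u}).card ↔ u ∈ X := by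
  by_cases hu : u ∈ X
  · have : X ∩ {u} = {u} := by
      ext v
      simp only [Finset.mem_inter, Finset.mem_singleton]
      constructor
      · exact fun h => h.2
      · rintro rfl
        exact ⟨hu, rfl⟩
    rw [this]
    simp [hu]
  · have : X ∩ {u} = ∅ := by
      ext v
      simp only [Finset.mem_inter, Finset.mem_singleton, Finset.notMem_empty, iff_false, not_and]
      rintro hv rfl
      exact hu hv
    rw [this]
    simp [hu]

theorem sum_Gp (g : Finset V → ℂ) (σ : V → Fin 2) :
    ∑ u, Gp g {u} σ = ∑ X : Finset V, (X.card : ℂ) * (g X * ch X σ) := by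
  unfold Gp
  have h1 : ∀ u : V, ∑ X ∈ univ.filter (fun X : Finset V => Odd (X ∩ {u}).card), g X * ch X σ =
      ∑ X : Finset V, if u ∈ X then g X * ch X σ else 0 := by
    intro u
    rw [Finset.sum_filter]
    exact Finset.sum_congr rfl fun X _ => by simp only [odd_single]
  simp only [h1]
  rw [Finset.sum_comm]
  refine Finset.sum_congr rfl fun X _ => ?_
  rw [← Finset.sum_filter, Finset.sum_const, nsmul_eq_mul]
  congr 2
  congr 1
  ext u
  simp

theorem co_Gp (h : WalshS) (g : Finset V → ℂ) (A X : Finset V) :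
    co (fun σ => Gp g A σ) X = if Odd (X ∩ A).card then g X else 0 := by
  obtain ⟨-, h2, -⟩ := h V
  have : (fun σ : V → Fin 2 => Gp g A σ) =
      fun σ => ∑ X : Finset V, (if Odd (X ∩ A).card then g X else 0) * ch X σ := by
    funext σ
    unfold Gp
    rw [Finset.sum_filter]
    refine Finset.sum_congr rfl fun X _ => ?_
    by_cases hX : Odd (X ∩ A).card
    · rw [if_pos hX, if_pos hX]
    · rw [if_neg hX, if_neg hX, zero_mul]
  rw [this, h2]

end

end Pool.Agent.Q73.KT
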